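import Pool.Agent.H.MP_b4a25c_gt.B

namespace Pool.Agent.Results.MP_b4a25c_gt.Counter

open Pool.Agent.H.MP_b4a25c_gt
open scoped NNReal

theorem result :
    (∀ n : ℕ, 1 ≤ n → ∀ (G : Type) [Group G], IsEmpty (N ≃* Heis n × G)) ∧
    (∀ p q : N, ccDist p q < ⊤) ∧
    ∃ F : N ≃ N,
      (∃ L : ℝ≥0, ∀ p q : N,
        ccDist (F p) (F q) ≤ L * ccDist p q ∧ ccDist p q ≤ L * ccDist (F p) (F q)) ∧
      ∃ g : N, ∀ h : N,
        F '' ((fun x => g * x) '' ((⊤ : Subgroup N).lowerCentralSeries 1 : Set N)) ≠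
          (fun x => h * x) '' ((⊤ : Subgroup N).lowerCentralSeries 1 : Set N) := by
  have a : ∀ p : V1 × V2, shear (-1) (shear 1 p) = p := fun p => by
    simpa using shear_shear (-1) p
  refine ⟨fun n hn G _ => noHeis n hn G, cc_finite,
    ⟨shear 1, shear (-1), fun p => a p, fun p => shear_shear 1 p⟩,
    ⟨4, fun p q => ⟨cc_shear (c := 1) (by simp) p q, ?_⟩⟩, 1, fun h e => ?_⟩
  · have := cc_shear (c := -1) (by simp) (shear 1 p) (shear 1 q)
    rw [a p, a q] at this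
    exact this
  · have key : ∀ z : N, z.1 = 0 → (shear 1 z).1 0 = h.1 0 := by
      intro z hz
      have : shear 1 z ∈ (fun x => h * x) '' ((⊤ : Subgroup N).lowerCentralSeries 1 : Set N) := by
        rw [← e]
        exact ⟨z, ⟨z, (mem_lcs z).2 hz, one_mul z⟩, rfl⟩
      obtain ⟨w, hw, ew⟩ := this
      rw [← ew]
      change (h * w).1 0 = _
      rw [mul_fst, (mem_lcs w).1 hw, add_zero]
    have k1 := key ((0, 0) : V1 × V2) rfl
    have k2 := key ((0, !₂[0, 0, 1]) : V1 × V2) rfl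
    rw [← k1] at k2
    simp [shear, hh, e0] at k2
    norm_num at k2

end Pool.Agent.Results.MP_b4a25c_gt.Counter
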